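import Mathlib

/-!
# MP_7acacd_co: Wilf classes of Hertzsprung patterns and palindromic prefixes
-/

set_option autoImplicit false

open Finset Equiv

namespace Pool.Agent.Results.MP_7acacd_co.Hertzsprung

/-- The pattern `σ` (a permutation of `k` letters) occurs in `π` (a permutation of `n` letters)
at the positions `i, …, i + k - 1`: the letters of `π` there are the letters of `σ`, shifted by a
constant `d`. -/
def OccursAt {k n : ℕ} (σ : Perm (Fin k)) (π : Perm (Fin n)) (i : ℕ) : Prop :=
  i + k ≤ n ∧ ∃ d : ℤ, ∀ (j : Fin k) (p : Fin n), (p : ℕ) = i + j →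
    (((π p : Fin n) : ℕ) : ℤ) = ((σ j : Fin k) : ℕ) + d

/-- the number `|S_n(σ)|` of permutations of `n` letters that avoid `σ`. -/
noncomputable def numAv {k : ℕ} (n : ℕ) (σ : Perm (Fin k)) : ℕ :=
  Nat.card {π : Perm (Fin n) // ∀ i, ¬ OccursAt σ π i}

/-- Wilf-equivalence. -/
def wilf (k : ℕ) : Setoid (Perm (Fin k)) where
  r σ τ := ∀ n, numAv n σ = numAv n τ
  iseqv := ⟨fun _ _ => rfl, fun h n => (h n).symm, fun h h' n => (h n).trans (h' n)⟩

/-- the number of Wilf classes of `S_k`. -/
noncomputable def a (k : ℕ) : ℕ := Nat.card (Quotient (wilf k))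

/-- `w` is a palindrome. -/
def IsPal {n : ℕ} (w : Fin n → Bool) : Prop :=
  ∀ s t : Fin n, (s : ℕ) + t + 1 = n → w s = w t

/-- the set of lengths of nonempty palindromic prefixes of `w`. -/
def P {n : ℕ} (w : Fin n → Bool) : Set ℕ :=
  {i | 1 ≤ i ∧ i ≤ n ∧ ∀ s t : Fin n, (s : ℕ) + t + 1 = i → w s = w t}

/-- the number of distinct sets `P w`, for `w` a binary palindrome of length `n`. -/
noncomputable def b (n : ℕ) : ℕ := Set.ncard {S : Set ℕ | ∃ w : Fin n → Bool, IsPal w ∧ P w = S}

/-! ### Permutations as functions on the naturals -/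

section ex

variable {k : ℕ}

/-- extension of a permutation of `Fin k` by the identity. -/
def ex (σ : Perm (Fin k)) (t : ℕ) : ℕ := if h : t < k then (σ ⟨t, h⟩ : ℕ) else t

theorem ex_val (σ : Perm (Fin k)) (t : Fin k) : ex σ t = (σ t : ℕ) := by
  simp [ex]

theorem ex_lt (σ : Perm (Fin k)) {t : ℕ} (h : t < k) : ex σ t < k := by
  simp [ex, h]

theorem ex_ge (σ : Perm (Fin k)) {t : ℕ} (h : k ≤ t) : ex σ t = t := by
  simp [ex, Nat.not_lt.2 h]

theorem ex_mul (σ τ : Perm (Fin k)) (t : ℕ) : ex (σ * τ) t = ex σ (ex τ t) := by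
  by_cases h : t < k
  · simp [ex, h]
  · rw [ex_ge _ (by omega), ex_ge τ (by omega), ex_ge _ (by omega)]

theorem ex_one (t : ℕ) : ex (1 : Perm (Fin k)) t = t := by
  by_cases h : t < k
  · simp [ex, h]
  · rw [ex_ge _ (by omega)]

theorem ex_inv_ex (σ : Perm (Fin k)) (t : ℕ) : ex σ⁻¹ (ex σ t) = t := by
  rw [← ex_mul, inv_mul_cancel, ex_one]

theorem ex_ex_inv (σ : Perm (Fin k)) (t : ℕ) : ex σ (ex σ⁻¹ t) = t := by
  rw [← ex_mul, mul_inv_cancel, ex_one]

theorem ex_inj (σ : Perm (Fin k)) : Function.Injective (ex σ) := fun s t h => by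
  rw [← ex_inv_ex σ s, h, ex_inv_ex]

theorem occ_iff {n : ℕ} (σ : Perm (Fin k)) (π : Perm (Fin n)) (i : ℕ) :
    OccursAt σ π i ↔ i + k ≤ n ∧ ∃ d : ℤ, ∀ t < k, (ex π (i + t) : ℤ) = ex σ t + d := by
  unfold OccursAt
  refine and_congr_right fun hi => exists_congr fun d => ?_
  constructor
  · intro h t ht
    have := h ⟨t, ht⟩ ⟨i + t, by omega⟩ rfl
    rw [← ex_val, ← ex_val] at this
    exact this
  · intro h j p hp
    have := h j j.isLt
    rw [← hp, ex_val, ex_val] at this
    exact this

/-- the complement of a permutation. -/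
def comp {k : ℕ} (σ : Perm (Fin k)) : Perm (Fin k) := Fin.revPerm * σ

theorem ex_comp (σ : Perm (Fin k)) {t : ℕ} (h : t < k) : ex (comp σ) t + ex σ t + 1 = k := by
  have h1 := (σ ⟨t, h⟩).isLt
  simp only [ex, h, comp, dif_pos, Perm.mul_apply, Fin.revPerm_apply, Fin.val_rev]
  omega

theorem comp_comp (σ : Perm (Fin k)) : comp (comp σ) = σ := by
  ext t
  simp [comp]

theorem occ_comp {n : ℕ} (σ : Perm (Fin k)) (π : Perm (Fin n)) (i : ℕ) (h : OccursAt σ π i) :
    OccursAt (comp σ) (comp π) i := by
  rw [occ_iff] at h ⊢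
  obtain ⟨h1, d, hd⟩ := h
  refine ⟨h1, (n : ℤ) - k - d, fun t ht => ?_⟩
  have e1 := hd t ht
  have e2 := ex_comp σ ht
  have e3 := ex_comp π (t := i + t) (by omega)
  omega

/-- shifts of the first kind. -/
def Dp (σ : Perm (Fin k)) : Set ℕ :=
  {s | 1 ≤ s ∧ s < k ∧ ∀ t, t + s < k → ex σ (t + s) = ex σ t + s}

/-- all the shifts. -/
def D (σ : Perm (Fin k)) : Set ℕ := Dp σ ∪ Dp (comp σ)

theorem D_comp (σ : Perm (Fin k)) : D (comp σ) = D σ := by
  unfold D
  rw [comp_comp, Set.union_comm]

theorem stable (σ : Perm (Fin k)) (Q : ℕ → Prop) (hQ : ∀ t < k, Q t → Q (ex σ t)) (t : ℕ)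
    (ht : t < k) (h : Q (ex σ t)) : Q t := by
  have := Equiv.Perm.perm_symm_on_of_perm_on_finite (f := σ) (p := fun t : Fin k => Q t)
    (fun x hx => by
      have := hQ x x.isLt hx
      rwa [ex_val] at this) (x := σ ⟨t, ht⟩) (by
      rw [← ex_val]; exact h)
  simpa using this

theorem Dp_lt (σ : Perm (Fin k)) {s : ℕ} (hs : s ∈ Dp σ) {t : ℕ} (ht : t < k) :
    ex σ t < k - s ↔ t < k - s := by
  obtain ⟨h1, h2, h3⟩ := hs
  have h4 : ∀ t < k, t < k - s → ex σ t < k - s := by
    intro t ht h
    have := h3 t (by omega)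
    have := ex_lt σ (t := t + s) (by omega)
    omega
  exact ⟨fun h => stable σ (fun x => x < k - s) h4 t ht h, h4 t ht⟩

theorem Dp_ge (σ : Perm (Fin k)) {s : ℕ} (hs : s ∈ Dp σ) {t : ℕ} (ht : t < k) :
    s ≤ ex σ t ↔ s ≤ t := by
  obtain ⟨h1, h2, h3⟩ := hs
  have h4 : ∀ t < k, s ≤ t → s ≤ ex σ t := by
    intro t ht h
    have := h3 (t - s) (by omega)
    rw [Nat.sub_add_cancel h] at this
    omega
  exact ⟨fun h => stable σ (fun x => s ≤ x) h4 t ht h, h4 t ht⟩

theorem Dp_inv (σ : Perm (Fin k)) {s : ℕ} (hs : s ∈ Dp σ) : s ∈ Dp σ⁻¹ := by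
  have hs' := hs
  obtain ⟨h1, h2, h3⟩ := hs
  refine ⟨h1, h2, fun t ht => ?_⟩
  apply ex_inj σ
  have h5 : ex σ⁻¹ t < k := ex_lt _ (by omega)
  have h6 : ex σ⁻¹ t < k - s := by
    rw [← Dp_lt σ hs' h5, ex_ex_inv]
    omega
  rw [ex_ex_inv, h3 _ (by omega), ex_ex_inv]

theorem Dp_add (σ : Perm (Fin k)) {s s' : ℕ} (hs : s ∈ Dp σ) (hs' : s' ∈ Dp σ)
    (h : s + s' < k) : s + s' ∈ Dp σ := by
  refine ⟨by have := hs.1; omega, h, fun t ht => ?_⟩
  rw [← add_assoc, hs'.2.2 (t + s) (by omega), hs.2.2 t (by omega), add_assoc]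

theorem Dp_disj (σ : Perm (Fin k)) {s s' : ℕ} (hs : s ∈ Dp σ) (hs' : s' ∈ Dp (comp σ)) :
    False := by
  have k1 := hs.1
  have k2 := hs.2.1
  have k3 := hs'.1
  have k4 := hs'.2.1
  -- the position of the value `0`
  have a1 : ex σ⁻¹ 0 < k := ex_lt _ (by omega)
  have a2 : ex σ (ex σ⁻¹ 0) = 0 := ex_ex_inv _ _
  have a3 := ex_comp σ a1
  have a4 := Dp_lt σ hs a1
  have a5 := Dp_lt _ hs' a1
  have b1 : ex σ⁻¹ (k - 1) < k := ex_lt _ (by omega)
  have b2 : ex σ (ex σ⁻¹ (k - 1)) = k - 1 := ex_ex_inv _ _
  have b3 := ex_comp σ b1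
  have b4 := Dp_lt σ hs b1
  have b5 := Dp_lt _ hs' b1
  omega

theorem D_add (σ : Perm (Fin k)) {s s' : ℕ} (hs : s ∈ D σ) (hs' : s' ∈ D σ)
    (h : s + s' < k) : s + s' ∈ D σ := by
  rcases hs with hs | hs <;> rcases hs' with hs' | hs'
  · exact Or.inl (Dp_add σ hs hs' h)
  · exact (Dp_disj σ hs hs').elim
  · exact (Dp_disj σ hs' hs).elim
  · exact Or.inr (Dp_add _ hs hs' h)

theorem D_pos (σ : Perm (Fin k)) {s : ℕ} (hs : s ∈ D σ) : 1 ≤ s ∧ s < k := by
  rcases hs with hs | hs <;> exact ⟨hs.1, hs.2.1⟩

theorem type (σ : Perm (Fin k)) : D σ = Dp σ ∨ D σ = Dp (comp σ) := by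
  by_cases h : ∃ s, s ∈ Dp σ
  · obtain ⟨s, hs⟩ := h
    left
    unfold D
    rw [Set.union_eq_left]
    intro s' hs'
    exact (Dp_disj σ hs hs').elim
  · right
    unfold D
    rw [Set.union_eq_right]
    intro s' hs'
    exact (h ⟨s', hs'⟩).elim

end ex

/-! ### Two overlapping occurrences -/

section overlap

variable {k n : ℕ}

theorem shift_mem_aux (σ : Perm (Fin k)) (π : Perm (Fin n)) {i j : ℕ} (hij : i < j)
    (hjk : j < i + k) (hi : i + k ≤ n) (hj : j + k ≤ n) {d e : ℤ}
    (hd : ∀ t < k, (ex π (i + t) : ℤ) = ex σ t + d)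
    (he : ∀ t < k, (ex π (j + t) : ℤ) = ex σ t + e) (hde : d ≤ e) : j - i ∈ Dp σ := by
  obtain ⟨s, rfl⟩ : ∃ s, j = i + s := ⟨j - i, by omega⟩
  obtain ⟨c, hc⟩ : ∃ c : ℕ, e = d + c := ⟨(e - d).toNat, by omega⟩
  have hs : s < k := by omega
  have key : ∀ t, t + s < k → ex σ (t + s) = ex σ t + c := by
    intro t ht
    have h1 := hd (t + s) ht
    have h2 := he t (by omega)
    rw [show i + s + t = i + (t + s) by ring] at h2
    omega
  have hcs : c ≤ s := by
    have := Finset.card_le_card_of_injOn (s := range (k - s)) (t := range (k - c)) (ex σ)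
      (by
        intro t ht
        simp only [coe_range, Set.mem_Iio] at ht ⊢
        have h1 := key t (by omega)
        have h2 := ex_lt σ (t := t + s) (by omega)
        omega) ((ex_inj σ).injOn)
    simp only [card_range] at this
    omega
  have hsc : s ≤ c := by
    have := Finset.card_le_card_of_injOn (s := range s) (t := range c) (ex σ)
      (by
        intro t ht
        simp only [coe_range, Set.mem_Iio] at ht ⊢
        by_contra hlt
        push Not at hlt
        have h1 := ex_lt σ (t := t) (by omega)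
        have h2 : ex σ⁻¹ (ex σ t - c) < k := ex_lt _ (by omega)
        have h3 := he _ h2
        rw [ex_ex_inv] at h3
        have h4 := hd t (by omega)
        have h5 : ex π (i + s + ex σ⁻¹ (ex σ t - c)) = ex π (i + t) := by omega
        have := ex_inj π h5
        omega) ((ex_inj σ).injOn)
    simp only [card_range] at this
    omega
  have : c = s := le_antisymm hcs hsc
  subst this
  rw [Nat.add_sub_cancel_left]
  exact ⟨by omega, hs, key⟩

theorem shift_mem (σ : Perm (Fin k)) (π : Perm (Fin n)) {i j : ℕ} (hij : i < j)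
    (hjk : j < i + k) (hi : OccursAt σ π i) (hj : OccursAt σ π j) : j - i ∈ D σ := by
  have hi' := occ_comp σ π i hi
  have hj' := occ_comp σ π j hj
  rw [occ_iff] at hi hj hi' hj'
  obtain ⟨h1, d, hd⟩ := hi
  obtain ⟨h2, e, he⟩ := hj
  obtain ⟨-, d', hd'⟩ := hi'
  obtain ⟨-, e', he'⟩ := hj'
  rcases le_total d e with h | h
  · exact Or.inl (shift_mem_aux σ π hij hjk h1 h2 hd he h)
  · right
    refine shift_mem_aux (comp σ) (comp π) hij hjk h1 h2 hd' he' ?_
    have a1 := hd 0 (by omega)
    have a2 := he 0 (by omega)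
    have a3 := hd' 0 (by omega)
    have a4 := he' 0 (by omega)
    have a5 := ex_comp σ (t := 0) (by omega)
    have a6 := ex_comp π (t := i + 0) (by omega)
    have a7 := ex_comp π (t := j + 0) (by omega)
    omega

end overlap

/-! ### The number of permutations with prescribed occurrences -/

section count

variable {k n : ℕ}

open Classical in
/-- the number of permutations with occurrences of `σ` at all `i ∈ I`. -/
noncomputable def N (n : ℕ) (σ : Perm (Fin k)) (I : Finset ℕ) : ℕ :=
  ((univ : Finset (Perm (Fin n))).filter fun π => ∀ i ∈ I, OccursAt σ π i).card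

/-- compatibility of a set of positions with a set of shifts. -/
def compat (k : ℕ) (D : Set ℕ) (I : Finset ℕ) : Prop :=
  ∀ i ∈ I, ∀ j ∈ I, i < j → j < i + k → j - i ∈ D

theorem N_zero (σ : Perm (Fin k)) (I : Finset ℕ) (h : ¬ compat k (D σ) I) : N n σ I = 0 := by
  classical
  unfold N
  rw [Finset.card_eq_zero, Finset.filter_eq_empty_iff]
  intro π _ hπ
  apply h
  intro i hi j hj hij hjk
  exact shift_mem σ π hij hjk (hπ i hi) (hπ j hj)

theorem occ_comp_iff (σ : Perm (Fin k)) (π : Perm (Fin n)) (i : ℕ) :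
    OccursAt (comp σ) (comp π) i ↔ OccursAt σ π i := by
  constructor
  · intro h
    have := occ_comp _ _ i h
    rwa [comp_comp, comp_comp] at this
  · exact occ_comp σ π i

theorem N_comp (σ : Perm (Fin k)) (I : Finset ℕ) : N n (comp σ) I = N n σ I := by
  classical
  unfold N
  refine Finset.card_bij' (fun π _ => comp π) (fun π _ => comp π) ?_ ?_ ?_ ?_
  · intro π hπ
    simp only [mem_filter, mem_univ, true_and] at hπ ⊢
    intro i hi
    have := (occ_comp_iff (comp σ) π i).2 (hπ i hi)
    rwa [comp_comp] at this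
  · intro π hπ
    simp only [mem_filter, mem_univ, true_and] at hπ ⊢
    intro i hi
    exact (occ_comp_iff σ π i).2 (hπ i hi)
  · intro π _
    exact comp_comp π
  · intro π _
    exact comp_comp π

open Classical in
/-- the permutation of the positions. -/
noncomputable def fI (σ : Perm (Fin k)) (I : Finset ℕ) (p : ℕ) : ℕ :=
  if h : ∃ i, i ∈ I ∧ i ≤ p ∧ p < i + k then h.choose + ex σ (p - h.choose) else p

theorem fI_eq (σ : Perm (Fin k)) (I : Finset ℕ) (hc : compat k (Dp σ) I) {i p : ℕ}
    (hi : i ∈ I) (h1 : i ≤ p) (h2 : p < i + k) : fI σ I p = i + ex σ (p - i) := by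
  have h : ∃ i, i ∈ I ∧ i ≤ p ∧ p < i + k := ⟨i, hi, h1, h2⟩
  unfold fI
  rw [dif_pos h]
  have hs := h.choose_spec
  set j := h.choose
  obtain ⟨hj, g1, g2⟩ := hs
  rcases lt_trichotomy i j with hlt | heq | hlt
  · have := (hc i hi j hj hlt (by omega)).2.2 (p - j) (by omega)
    rw [show p - j + (j - i) = p - i by omega] at this
    omega
  · rw [heq]
  · have := (hc j hj i hi hlt (by omega)).2.2 (p - i) (by omega)
    rw [show p - i + (i - j) = p - j by omega] at this
    omega

theorem fI_out (σ : Perm (Fin k)) (I : Finset ℕ) {p : ℕ}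
    (h : ¬ ∃ i, i ∈ I ∧ i ≤ p ∧ p < i + k) : fI σ I p = p := by
  unfold fI
  rw [dif_neg h]

theorem fI_inv (σ : Perm (Fin k)) (I : Finset ℕ) (hc : compat k (Dp σ) I) (p : ℕ) :
    fI σ⁻¹ I (fI σ I p) = p := by
  have hc' : compat k (Dp σ⁻¹) I := fun i hi j hj h1 h2 => Dp_inv σ (hc i hi j hj h1 h2)
  by_cases h : ∃ i, i ∈ I ∧ i ≤ p ∧ p < i + k
  · obtain ⟨i, hi, h1, h2⟩ := h
    have h3 := ex_lt σ (t := p - i) (by omega)
    rw [fI_eq σ I hc hi h1 h2, fI_eq σ⁻¹ I hc' hi (by omega) (by omega),
      Nat.add_sub_cancel_left, ex_inv_ex]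
    omega
  · rw [fI_out σ I h, fI_out _ I h]

theorem fI_lt (σ : Perm (Fin k)) (I : Finset ℕ) (hI : ∀ i ∈ I, i + k ≤ n) {p : ℕ}
    (hp : p < n) : fI σ I p < n := by
  by_cases h : ∃ i, i ∈ I ∧ i ≤ p ∧ p < i + k
  · unfold fI
    rw [dif_pos h]
    obtain ⟨h0, h1, h2⟩ := h.choose_spec
    have h3 := ex_lt σ (t := p - h.choose) (by omega)
    have := hI _ h0
    omega
  · rwa [fI_out σ I h]

theorem compat_inv (σ : Perm (Fin k)) (I : Finset ℕ) (hc : compat k (Dp σ) I) :
    compat k (Dp σ⁻¹) I := fun i hi j hj h1 h2 => Dp_inv σ (hc i hi j hj h1 h2)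

theorem N_eq (σ : Perm (Fin k)) (I : Finset ℕ) (hc : compat k (Dp σ) I)
    (hI : ∀ i ∈ I, i + k ≤ n) : N n σ I = N n (1 : Perm (Fin k)) I := by
  classical
  have hc' := compat_inv σ I hc
  let f : Perm (Fin n) :=
    { toFun := fun p => ⟨fI σ I p, fI_lt σ I hI p.isLt⟩
      invFun := fun p => ⟨fI σ⁻¹ I p, fI_lt σ⁻¹ I hI p.isLt⟩
      left_inv := fun p => Fin.ext (fI_inv σ I hc p)
      right_inv := fun p => Fin.ext (by
        have := fI_inv σ⁻¹ I hc' p
        rwa [inv_inv] at this) }
  have hf : ∀ p < n, ex f p = fI σ I p := by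
    intro p hp
    simp [ex, hp, f]
  have main : ∀ (π : Perm (Fin n)) (i : ℕ), i ∈ I →
      (OccursAt (1 : Perm (Fin k)) π i ↔ OccursAt σ (π * f) i) := by
    intro π i hi
    rw [occ_iff, occ_iff]
    refine and_congr_right fun hin => exists_congr fun d => ?_
    constructor
    · intro h t ht
      have h1 := ex_lt σ ht
      have h2 := h (ex σ t) h1
      rw [ex_one] at h2
      rw [ex_mul, hf _ (by omega), fI_eq σ I hc hi (by omega) (by omega),
        Nat.add_sub_cancel_left]
      exact h2
    · intro h t ht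
      have h1 := ex_lt σ⁻¹ ht
      have h2 := h (ex σ⁻¹ t) h1
      rw [ex_mul, hf _ (by omega), fI_eq σ I hc hi (by omega) (by omega),
        Nat.add_sub_cancel_left, ex_ex_inv] at h2
      rw [ex_one]
      exact h2
  symm
  unfold N
  refine Finset.card_equiv (Equiv.mulRight f) fun π => ?_
  simp only [mem_filter, mem_univ, true_and, Equiv.coe_mulRight]
  exact forall₂_congr fun i hi => main π i hi

open Classical in
theorem N_formula (σ : Perm (Fin k)) (I : Finset ℕ) (hI : ∀ i ∈ I, i + k ≤ n) :
    N n σ I = if compat k (D σ) I then N n (1 : Perm (Fin k)) I else 0 := by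
  by_cases h : compat k (D σ) I
  · rw [if_pos h]
    rcases type σ with ht | ht
    · rw [ht] at h
      exact N_eq σ I h hI
    · rw [ht] at h
      rw [← N_comp σ I]
      exact N_eq _ I h hI
  · rw [if_neg h, N_zero σ I h]

theorem av_formula (n : ℕ) (σ : Perm (Fin k)) :
    (numAv n σ : ℤ) = ∑ I ∈ (range (n + 1 - k)).powerset, (-1) ^ I.card * (N n σ I : ℤ) := by
  classical
  have h1 : (numAv n σ : ℤ) = ∑ π : Perm (Fin n), if ∀ i, ¬ OccursAt σ π i then 1 else 0 := by
    unfold numAv
    rw [Nat.card_eq_fintype_card, Fintype.card_subtype, Finset.card_filter]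
    push_cast
    rfl
  rw [h1]
  have h2 : ∀ π : Perm (Fin n), (if ∀ i, ¬ OccursAt σ π i then (1 : ℤ) else 0) =
      ∑ I ∈ (range (n + 1 - k)).powerset, (-1) ^ I.card *
        (if ∀ i ∈ I, OccursAt σ π i then 1 else 0) := by
    intro π
    have e1 : (if ∀ i, ¬ OccursAt σ π i then (1 : ℤ) else 0) =
        ∏ i ∈ range (n + 1 - k), ((-(if OccursAt σ π i then 1 else 0)) + 1) := by
      split_ifs with h
      · symm
        refine Finset.prod_eq_one fun i _ => ?_
        rw [if_neg (h i)]
        ring
      · push Not at h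
        obtain ⟨i, hi⟩ := h
        symm
        refine Finset.prod_eq_zero (i := i) ?_ (by rw [if_pos hi]; ring)
        rw [mem_range]
        have := hi.1
        omega
    rw [e1, Finset.prod_add]
    refine Finset.sum_congr rfl fun I _ => ?_
    rw [Finset.prod_const_one, mul_one, Finset.prod_neg]
    congr 1
    by_cases h : ∀ i ∈ I, OccursAt σ π i
    · rw [if_pos h]
      exact Finset.prod_eq_one fun i hi => if_pos (h i hi)
    · rw [if_neg h]
      push Not at h
      obtain ⟨i, hi, hi'⟩ := h
      exact Finset.prod_eq_zero hi (if_neg hi')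
  simp only [h2]
  rw [Finset.sum_comm]
  refine Finset.sum_congr rfl fun I _ => ?_
  rw [← Finset.mul_sum]
  congr 1
  unfold N
  rw [Finset.card_filter]
  push_cast
  rfl

open Classical in
theorem av_formula' (n : ℕ) (σ : Perm (Fin k)) :
    (numAv n σ : ℤ) = ∑ I ∈ (range (n + 1 - k)).powerset,
      if compat k (D σ) I then (-1) ^ I.card * (N n (1 : Perm (Fin k)) I : ℤ) else 0 := by
  rw [av_formula]
  refine Finset.sum_congr rfl fun I hI => ?_
  rw [mem_powerset] at hI
  rw [N_formula σ I (fun i hi => by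
    have := mem_range.1 (hI hi)
    omega)]
  split_ifs
  · rfl
  · simp

theorem compat_iff_of_lt {D₁ D₂ : Set ℕ} {d : ℕ} (hD : ∀ s < d, s ∈ D₁ ↔ s ∈ D₂)
    {I : Finset ℕ} (hI : I ⊆ range (d + 1)) (h : ¬ (0 ∈ I ∧ d ∈ I)) :
    compat k D₁ I ↔ compat k D₂ I := by
  have key : ∀ i ∈ I, ∀ j ∈ I, i < j → j - i < d := by
    intro i hi j hj hij
    have := mem_range.1 (hI hj)
    by_contra hc
    have h1 : i = 0 := by omega
    have h2 : j = d := by omega
    subst h1 h2
    exact h ⟨hi, hj⟩
  constructor
  · intro hc i hi j hj h1 h2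
    exact (hD _ (key i hi j hj h1)).1 (hc i hi j hj h1 h2)
  · intro hc i hi j hj h1 h2
    exact (hD _ (key i hi j hj h1)).2 (hc i hi j hj h1 h2)

theorem N_one_pos (I : Finset ℕ) (hI : ∀ i ∈ I, i + k ≤ n) :
    0 < N n (1 : Perm (Fin k)) I := by
  classical
  unfold N
  rw [Finset.card_pos]
  refine ⟨1, ?_⟩
  simp only [mem_filter, mem_univ, true_and]
  intro i hi
  rw [occ_iff]
  refine ⟨hI i hi, i, fun t _ => ?_⟩
  rw [ex_one, ex_one]
  push_cast
  ring

theorem not_wilf_of (σ τ : Perm (Fin k)) {d : ℕ} (hd : d ∈ D σ) (hd' : d ∉ D τ)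
    (hmin : ∀ s < d, s ∈ D σ ↔ s ∈ D τ) : numAv (k + d) σ ≠ numAv (k + d) τ := by
  classical
  obtain ⟨h1, h2⟩ := D_pos σ hd
  intro heq
  have hz : (numAv (k + d) σ : ℤ) - numAv (k + d) τ = 0 := by rw [heq]; ring
  rw [av_formula', av_formula', ← Finset.sum_sub_distrib,
    show k + d + 1 - k = d + 1 by omega] at hz
  rw [Finset.sum_eq_single ({0, d} : Finset ℕ)] at hz
  · have hc1 : compat k (D σ) {0, d} := by
      intro i hi j hj hij _
      simp only [mem_insert, mem_singleton] at hi hj
      have h3 : i = 0 := by omega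
      have h4 : j = d := by omega
      subst h3 h4
      simpa using hd
    have hc2 : ¬ compat k (D τ) {0, d} := by
      intro hc
      have := hc 0 (by simp) d (by simp) (by omega) (by omega)
      exact hd' (by simpa using this)
    rw [if_pos hc1, if_neg hc2, Finset.card_pair (by omega)] at hz
    have := N_one_pos (k := k) (n := k + d) {0, d} (by
      intro i hi
      simp only [mem_insert, mem_singleton] at hi
      omega)
    norm_num at hz
    omega
  · intro I hI hne
    rw [mem_powerset] at hI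
    by_cases h : 0 ∈ I ∧ d ∈ I
    · have hc2 : ¬ compat k (D τ) I := by
        intro hc
        have := hc 0 h.1 d h.2 (by omega) (by omega)
        exact hd' (by simpa using this)
      have hc1 : ¬ compat k (D σ) I := by
        intro hc
        obtain ⟨i, hi, hi0, hid⟩ : ∃ i ∈ I, i ≠ 0 ∧ i ≠ d := by
          by_contra hcon
          push Not at hcon
          apply hne
          ext i
          simp only [mem_insert, mem_singleton]
          constructor
          · intro hi
            by_cases h0 : i = 0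
            · exact Or.inl h0
            · exact Or.inr (hcon i hi h0)
          · rintro (rfl | rfl)
            · exact h.1
            · exact h.2
        have h3 := mem_range.1 (hI hi)
        have h4 := hc 0 h.1 i hi (by omega) (by omega)
        have h5 := hc i hi d h.2 (by omega) (by omega)
        rw [Nat.sub_zero, hmin i (by omega)] at h4
        rw [hmin (d - i) (by omega)] at h5
        have h6 := D_add τ h4 h5 (by omega)
        rw [show i + (d - i) = d by omega] at h6
        exact hd' h6
      rw [if_neg hc1, if_neg hc2, sub_zero]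
    · have := compat_iff_of_lt (k := k) hmin hI h
      by_cases hc : compat k (D σ) I
      · rw [if_pos hc, if_pos (this.1 hc), sub_self]
      · rw [if_neg hc, if_neg (fun h' => hc (this.2 h')), sub_self]
  · intro h
    exact absurd (by
      rw [mem_powerset]
      intro i hi
      simp only [mem_insert, mem_singleton] at hi
      rw [mem_range]
      omega) h

theorem wilf_iff (σ τ : Perm (Fin k)) : (wilf k).r σ τ ↔ D σ = D τ := by
  classical
  constructor
  · intro h
    by_contra hne
    have hex : ∃ d, ¬ (d ∈ D σ ↔ d ∈ D τ) := by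
      by_contra hcon
      push Not at hcon
      exact hne (Set.ext hcon)
    have hs := Nat.find_spec hex
    have hm : ∀ s < Nat.find hex, s ∈ D σ ↔ s ∈ D τ := fun s hs => by
      have := Nat.find_min hex hs
      exact not_not.1 this
    set d := Nat.find hex
    by_cases hd : d ∈ D σ
    · have hd' : d ∉ D τ := fun h' => hs ⟨fun _ => h', fun _ => hd⟩
      exact not_wilf_of σ τ hd hd' hm (h _)
    · have hd' : d ∈ D τ := by
        by_contra h'
        exact hs ⟨fun h => absurd h hd, fun h => absurd h h'⟩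
      exact not_wilf_of τ σ hd' hd (fun s hs => (hm s hs).symm) (h _).symm
  · intro h n
    have : (numAv n σ : ℤ) = numAv n τ := by
      rw [av_formula', av_formula', h]
    exact_mod_cast this

end count

/-! ### Words and periods -/

section words

variable {α : Type*}

/-- `p` is a period of the word `X 0, …, X (N - 1)`. -/
def per (X : ℕ → α) (N p : ℕ) : Prop := ∀ i, i + p < N → X i = X (i + p)

theorem per_mod {X : ℕ → α} {N p : ℕ} (h : per X N p) {i : ℕ} (hi : i < N) :
    X i = X (i % p) := by
  induction i using Nat.strong_induction_on with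
  | _ i ih =>
    by_cases hip : i < p
    · rw [Nat.mod_eq_of_lt hip]
    · by_cases hp : p = 0
      · subst hp; rw [Nat.mod_zero]
      · have h1 := h (i - p) (by omega)
        rw [Nat.sub_add_cancel (by omega)] at h1
        rw [← h1, ih (i - p) (by omega) (by omega), Nat.mod_eq_sub_mod (by omega : i ≥ p)]

theorem fw {X : ℕ → α} {N p q : ℕ} (hp : per X N p) (hq : per X N q)
    (h : p + q ≤ N + p.gcd q) : per X N (p.gcd q) := by
  have key : ∀ p, per X N p ↔ List.HasPeriod ((List.range N).map X) p := by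
    intro p
    rw [List.hasPeriod_iff_getElem?]
    constructor
    · intro h i hi
      simp only [List.length_map, List.length_range] at hi
      have h1 : i < N := by omega
      have h2 : i + p < N := by omega
      simp [h1, h2, h i h2]
    · intro h i hi
      have := h i (by simp only [List.length_map, List.length_range]; omega)
      have h1 : i < N := by omega
      simpa [h1, hi] using this
  rw [key] at hp hq ⊢
  refine hp.gcd hq ?_
  simp only [List.length_map, List.length_range]
  omega

theorem per_congr {X Y : ℕ → α} {N p : ℕ} (h : ∀ i < N, X i = Y i) : per X N p ↔ per Y N p := by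
  constructor
  · intro hX i hi
    rw [← h i (by omega), ← h _ hi, hX i hi]
  · intro hY i hi
    rw [h i (by omega), h _ hi, hY i hi]

theorem per_decomp {X : ℕ → α} {N p b : ℕ} (hN : N = b + p) (hp : per X N p)
    (hmin : ∀ p', 0 < p' → p' < p → ¬ per X N p') {q : ℕ} (hq : 0 < q) :
    per X N q ↔ q = p ∨ (p < q ∧ per X b (q - p)) := by
  constructor
  · intro h
    rcases lt_trichotomy q p with h1 | h1 | h1
    · exact absurd h (hmin q hq h1)
    · exact Or.inl h1
    · right
      refine ⟨h1, fun i hi => ?_⟩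
      have e1 := h i (by omega)
      have e2 := hp (i + (q - p)) (by omega)
      rw [e1, e2]
      congr 1
      omega
  · rintro (rfl | ⟨h1, h2⟩)
    · exact hp
    · intro i hi
      have e1 := h2 i (by omega)
      have e2 := hp (i + (q - p)) (by omega)
      rw [e1, e2]
      congr 1
      omega

/-- the word `z c c c …`. -/
def W (z : ℕ → Bool) (b : ℕ) (c : Bool) (i : ℕ) : Bool := if i < b then z i else c

theorem gcd_bound {r s p : ℕ} (hs : 0 < s) (hsr : s ≤ r) (hrp : r < p) (hr : r ∣ p)
    (hsp : s ∣ p) : r + 2 * s ≤ p + r.gcd s + 1 := by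
  have hr0 : 0 < r := by omega
  obtain ⟨k, hk⟩ := hr
  have hk2 : 2 ≤ k := by
    by_contra hlt
    have : k = 0 ∨ k = 1 := by omega
    rcases this with rfl | rfl <;> simp at hk <;> omega
  have h2r : 2 * r ≤ p := by rw [hk]; nlinarith
  by_cases hrs : r = s
  · subst hrs
    rw [Nat.gcd_self]
    omega
  have hl : r.lcm s ≤ p := Nat.le_of_dvd (by omega) (Nat.lcm_dvd ⟨k, hk⟩ hsp)
  have hg : 0 < r.gcd s := Nat.gcd_pos_of_pos_left _ hr0
  obtain ⟨r', hr'⟩ := Nat.gcd_dvd_left r s
  obtain ⟨s', hs'⟩ := Nat.gcd_dvd_right r s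
  have hgl := Nat.gcd_mul_lcm r s
  generalize r.gcd s = g at *
  generalize r.lcm s = l at *
  have hl' : l = g * r' * s' := by
    have : g * l = g * (g * r' * s') := by
      rw [hgl]
      calc r * s = (g * r') * (g * s') := by rw [← hr', ← hs']
        _ = _ := by ring
    exact Nat.eq_of_mul_eq_mul_left hg this
  rcases Nat.lt_or_ge s' 2 with h1 | h1
  · have : s' = 1 := by
      have : s' ≠ 0 := by rintro rfl; simp at hs'; omega
      omega
    subst this
    omega
  · have h2 : s' < r' := by
      have : g * s' < g * r' := by rw [← hs', ← hr']; omega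
      exact Nat.lt_of_mul_lt_mul_left this
    have h3 : r' + 2 * s' ≤ r' * s' + 1 := by
      obtain ⟨u, rfl⟩ : ∃ u, r' = s' + 1 + u := ⟨r' - s' - 1, by omega⟩
      obtain ⟨v, rfl⟩ : ∃ v, s' = 2 + v := ⟨s' - 2, by omega⟩
      nlinarith [Nat.zero_le (u * v), Nat.zero_le (v * v)]
    have h4 : g * (r' + 2 * s') ≤ g * (r' * s' + 1) := Nat.mul_le_mul_left g h3
    have h5 : g * (r' + 2 * s') = r + 2 * s := by
      calc g * (r' + 2 * s') = g * r' + 2 * (g * s') := by ring
        _ = _ := by rw [← hr', ← hs']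
    have h6 : g * (r' * s' + 1) = l + g := by rw [hl']; ring
    omega

theorem mod_pred {m g : ℕ} (hm : 0 < m) (h : g ∣ m) : (m - 1) % g = g - 1 := by
  obtain ⟨k, rfl⟩ := h
  have hg : 0 < g := Nat.pos_of_mul_pos_right hm |> fun _ => Nat.pos_of_ne_zero (by
    rintro rfl; simp at hm)
  have hk : 0 < k := Nat.pos_of_ne_zero (by rintro rfl; simp at hm)
  obtain ⟨k', rfl⟩ : ∃ k', k = k' + 1 := ⟨k - 1, by omega⟩
  rw [show g * (k' + 1) - 1 = (g - 1) + g * k' by rw [Nat.mul_add]; omega,
    Nat.add_mul_mod_self_left, Nat.mod_eq_of_lt (by omega)]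

theorem prim_aux (z : ℕ → Bool) {b p : ℕ} (hbp : b < p) {c c' : Bool} (hcc : c ≠ c') {r s : ℕ}
    (hs : 0 < s) (hsr : s ≤ r) (hrp : r < p) (hr : r ∣ p) (hsp : s ∣ p)
    (h1 : per (W z b c) p r) (h2 : per (W z b c') p s) (hm : p < b + s) : False := by
  have hb := gcd_bound hs hsr hrp hr hsp
  have hzr : per z b r := by
    intro i hi
    have := h1 i (by omega)
    unfold W at this
    rwa [if_pos (by omega), if_pos (by omega)] at this
  have hzs : per z b s := by
    intro i hi
    have := h2 i (by omega)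
    unfold W at this
    rwa [if_pos (by omega), if_pos (by omega)] at this
  have hzg := fw hzr hzs (by omega)
  have hr2 : 2 * r ≤ p := by
    obtain ⟨k, hk⟩ := hr
    have hk2 : 2 ≤ k := by
      by_contra hlt
      have : k = 0 ∨ k = 1 := by omega
      rcases this with rfl | rfl <;> simp at hk <;> omega
    rw [hk]; nlinarith
  have e1 : z (r - 1) = c := by
    have a1 := per_mod h1 (i := p - 1) (by omega)
    rw [mod_pred (by omega) hr] at a1
    unfold W at a1
    rw [if_neg (by omega), if_pos (by omega)] at a1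
    exact a1.symm
  have e2 : z (s - 1) = c' := by
    have a1 := per_mod h2 (i := p - 1) (by omega)
    rw [mod_pred (by omega) hsp] at a1
    unfold W at a1
    rw [if_neg (by omega), if_pos (by omega)] at a1
    exact a1.symm
  have e3 := per_mod hzg (i := r - 1) (by omega)
  have e4 := per_mod hzg (i := s - 1) (by omega)
  rw [mod_pred (by omega) (Nat.gcd_dvd_left r s)] at e3
  rw [mod_pred (by omega) (Nat.gcd_dvd_right r s)] at e4
  exact hcc (by rw [← e1, ← e2, e3, e4])

theorem fill_lt (z : ℕ → Bool) {b p : ℕ} (hbp : b < p) {c : Bool} (hz : ∃ i < b, z i ≠ c)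
    {g : ℕ} (hg : 0 < g) (hgp : g ∣ p) (h : per (W z b c) p g) : p < b + g := by
  by_contra hlt
  push Not at hlt
  obtain ⟨i, hi, hic⟩ := hz
  apply hic
  have hmod := Nat.mod_lt i hg
  have e1 := per_mod h (i := i) (by omega)
  have e2 := per_mod h (i := p - g + i % g) (by omega)
  have e3 : (p - g + i % g) % g = i % g := by
    obtain ⟨k, rfl⟩ := hgp
    have hk : 1 ≤ k := Nat.pos_of_ne_zero (by rintro rfl; simp at hbp)
    obtain ⟨k', rfl⟩ : ∃ k', k = k' + 1 := ⟨k - 1, by omega⟩
    rw [show g * (k' + 1) - g + i % g = i % g + g * k' by rw [Nat.mul_add]; omega,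
      Nat.add_mul_mod_self_left, Nat.mod_mod]
  rw [e3, ← e1] at e2
  unfold W at e2
  rw [if_neg (by omega), if_pos hi] at e2
  exact e2.symm

theorem filler (z : ℕ → Bool) {b p : ℕ} (hb : 1 ≤ b) (hbp : b < p) :
    ∃ c, (∃ i < b, z i ≠ c) ∧ ∀ g, 0 < g → g < p → g ∣ p → ¬ per (W z b c) p g := by
  by_cases hz : ∃ i < b, z i ≠ z 0
  · by_contra hcon
    push Not at hcon
    have hT : ∀ c, ∃ i < b, z i ≠ c := by
      intro c
      by_cases hc : z 0 = c
      · obtain ⟨i, hi, h⟩ := hz
        exact ⟨i, hi, by rw [← hc]; exact h⟩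
      · exact ⟨0, by omega, hc⟩
    obtain ⟨r, hr0, hrp, hrd, hr⟩ := hcon true (hT true)
    obtain ⟨s, hs0, hsp, hsd, hs⟩ := hcon false (hT false)
    have h1 := fill_lt z hbp (hT true) hr0 hrd hr
    have h2 := fill_lt z hbp (hT false) hs0 hsd hs
    rcases le_total s r with h | h
    · exact prim_aux z hbp (by decide) hs0 h hrp hrd hsd hr hs h2
    · exact prim_aux z hbp (by decide) hr0 h hsp hsd hrd hs hr h1
  · push Not at hz
    refine ⟨!(z 0), ⟨0, by omega, by simp⟩, ?_⟩
    intro g hg hgp hgd h
    by_cases hgb : g ≤ b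
    · have e1 := per_mod h (i := p - 1) (by omega)
      rw [mod_pred (by omega) hgd] at e1
      unfold W at e1
      have e2 := hz (g - 1) (by omega)
      rw [if_neg (by omega), if_pos (by omega), e2] at e1
      simp at e1
    · have e1 := h 0 (by omega)
      unfold W at e1
      rw [if_pos (by omega), if_neg (by omega)] at e1
      simp at e1

theorem claim (N : ℕ) : ∀ X : ℕ → α, 1 ≤ N → X 0 = X (N - 1) →
    ∃ w : ℕ → Bool, (∀ i < N, w i = w (N - 1 - i)) ∧
      ∀ p, 1 ≤ p → p < N → (per w N p ↔ per X N p) := by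
  classical
  induction N using Nat.strong_induction_on with
  | _ N ih =>
  intro X hN hX
  by_cases hN1 : N = 1
  · subst hN1
    exact ⟨fun _ => true, fun _ _ => rfl, fun p h1 h2 => absurd h2 (by omega)⟩
  have hex : ∃ p, 0 < p ∧ per X N p := ⟨N - 1, by omega, fun i hi => by
    have : i = 0 := by omega
    subst this
    rw [hX, zero_add]⟩
  have hp0 := (Nat.find_spec hex).1
  have hp := (Nat.find_spec hex).2
  have hmin : ∀ p', 0 < p' → p' < Nat.find hex → ¬ per X N p' := fun p' h1 h2 h3 =>
    Nat.find_min hex h2 ⟨h1, h3⟩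
  have hpN : Nat.find hex ≤ N - 1 := Nat.find_min' hex ⟨by omega, fun i hi => by
    have : i = 0 := by omega
    subst this
    rw [hX, zero_add]⟩
  set p := Nat.find hex
  obtain ⟨b, hb⟩ : ∃ b, N = b + p := ⟨N - p, by omega⟩
  have hb1 : 1 ≤ b := by omega
  have hXb : X 0 = X (b - 1) := by
    have := hp (b - 1) (by omega)
    rw [show b - 1 + p = N - 1 by omega] at this
    rw [this, hX]
  obtain ⟨z, hzpal, hzper⟩ := ih b (by omega) X hb1 hXb
  -- it is enough to find a palindrome extending `z` with least period `p`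
  suffices hw : ∃ w : ℕ → Bool, (∀ i < N, w i = w (N - 1 - i)) ∧ (∀ i < b, w i = z i) ∧
      per w N p ∧ ∀ p', 0 < p' → p' < p → ¬ per w N p' by
    obtain ⟨w, hw1, hw2, hw3, hw4⟩ := hw
    refine ⟨w, hw1, fun q hq1 hq2 => ?_⟩
    rw [per_decomp hb hw3 hw4 hq1, per_decomp hb hp hmin hq1]
    refine or_congr Iff.rfl (and_congr_right fun hpq => ?_)
    rw [per_congr hw2]
    exact hzper _ (by omega) (by omega)
  by_cases hbp : b < p
  · obtain ⟨c, hc1, hc2⟩ := filler z hb1 hbp
    refine ⟨fun i => if i < b then z i else if i < p then c else z (i - p), ?_, ?_, ?_, ?_⟩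
    · intro i hi
      show (if i < b then z i else if i < p then c else z (i - p)) =
        (if N - 1 - i < b then z (N - 1 - i) else
          if N - 1 - i < p then c else z (N - 1 - i - p))
      by_cases h1 : i < b
      · rw [if_pos h1, if_neg (by omega), if_neg (by omega), hzpal i h1]
        congr 1
        omega
      · rw [if_neg h1]
        by_cases h2 : i < p
        · rw [if_pos h2, if_neg (by omega), if_pos (by omega)]
        · rw [if_neg h2, if_pos (by omega), hzpal (i - p) (by omega)]
          congr 1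
          omega
    · intro i hi
      exact if_pos hi
    · intro i hi
      show (if i < b then z i else if i < p then c else z (i - p)) =
        (if i + p < b then z (i + p) else if i + p < p then c else z (i + p - p))
      rw [if_pos (by omega), if_neg (by omega), if_neg (by omega), Nat.add_sub_cancel]
    · intro p' hp'0 hp'p h
      by_cases hpb : p' ≤ b
      · have hpw : per (fun i => if i < b then z i else if i < p then c else z (i - p)) N p := by
          intro i hi
          show (if i < b then z i else if i < p then c else z (i - p)) =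
            (if i + p < b then z (i + p) else if i + p < p then c else z (i + p - p))
          rw [if_pos (by omega), if_neg (by omega), if_neg (by omega), Nat.add_sub_cancel]
        have hg := fw hpw h (by omega)
        have hg0 : 0 < p.gcd p' := Nat.gcd_pos_of_pos_left _ hp0
        have hgl : p.gcd p' ≤ p' := Nat.le_of_dvd hp'0 (Nat.gcd_dvd_right _ _)
        refine hc2 (p.gcd p') hg0 (by omega) (Nat.gcd_dvd_left _ _) ?_
        intro i hi
        have := hg i (by omega)
        simp only at this
        unfold W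
        rw [if_pos (by omega : i + p.gcd p' < p)] at this
        by_cases h1 : i < b
        · rw [if_pos h1] at this ⊢
          exact this
        · rw [if_neg h1] at this ⊢
          rw [if_pos (by omega : i < p)] at this
          exact this
      · push Not at hpb
        obtain ⟨i₀, hi₀, hne⟩ := hc1
        apply hne
        have hall : ∀ i, i < b → z i = c := by
          intro i
          induction i using Nat.strong_induction_on with
          | _ i ihi =>
          intro hib
          have e := h i (by omega)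
          simp only at e
          rw [if_pos hib, if_neg (by omega)] at e
          by_cases hlt : i + p' < p
          · rw [if_pos hlt] at e
            exact e
          · rw [if_neg hlt] at e
            rw [e]
            exact ihi (i + p' - p) (by omega) (by omega)
        exact hall i₀ hi₀
  · push Not at hbp
    have hzp : per z b p := by
      rcases Nat.lt_or_ge p b with h | h
      · rw [hzper p (by omega) h]
        intro i hi
        exact hp i (by omega)
      · intro i hi
        omega
    refine ⟨fun i => z (i % p), ?_, ?_, ?_, ?_⟩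
    · have key : ∀ i < b, z (i % p) = z ((N - 1 - i) % p) := by
        intro i hi
        rw [← per_mod hzp hi, hzpal i hi, per_mod hzp (i := b - 1 - i) (by omega),
          show N - 1 - i = b - 1 - i + p by omega, Nat.add_mod_right]
      intro i hi
      by_cases h : i < b
      · exact key i h
      · have := key (N - 1 - i) (by omega)
        rw [show N - 1 - (N - 1 - i) = i by omega] at this
        exact this.symm
    · intro i hi
      exact (per_mod hzp hi).symm
    · intro i hi
      show z (i % p) = z ((i + p) % p)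
      rw [Nat.add_mod_right]
    · intro p' hp'0 hp'p h
      have hpw : per (fun i => z (i % p)) N p := by
        intro i hi
        show z (i % p) = z ((i + p) % p)
        rw [Nat.add_mod_right]
      have hg := fw hpw h (by omega)
      have hg0 : 0 < p.gcd p' := Nat.gcd_pos_of_pos_left _ hp0
      have hgl : p.gcd p' ≤ p' := Nat.le_of_dvd hp'0 (Nat.gcd_dvd_right _ _)
      have hzg : per z b (p.gcd p') := by
        intro i hi
        have := hg i (by omega)
        simp only at this
        rwa [← per_mod hzp (by omega), ← per_mod hzp (by omega)] at this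
      rw [hzper _ (by omega) (by omega)] at hzg
      refine hmin (p.gcd p') hg0 (by omega) ?_
      have hall : ∀ j < N, X j = X (j % p.gcd p') := by
        intro j hj
        have hjp := Nat.mod_lt j hp0
        rw [per_mod hp hj, per_mod hzg (i := j % p) (by omega),
          Nat.mod_mod_of_dvd _ (Nat.gcd_dvd_left _ _)]
      intro i hi
      rw [hall i (by omega), hall _ hi, Nat.add_mod_right]

end words


/-! ### From patterns to words -/

section toword

variable {k : ℕ}

/-- the word attached to a permutation: partial sums of `σ t - t`. -/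
def Xw (σ : Perm (Fin k)) (i : ℕ) : ℤ := ∑ t ∈ range i, ((ex σ t : ℤ) - t)

theorem Xw_succ (σ : Perm (Fin k)) (i : ℕ) : Xw σ (i + 1) = Xw σ i + ((ex σ i : ℤ) - i) :=
  Finset.sum_range_succ _ _

theorem Xw_zero (σ : Perm (Fin k)) : Xw σ 0 = 0 := Finset.sum_range_zero _

theorem Xw_eq_zero (σ : Perm (Fin k)) (m : ℕ) (hm : ∀ t < m, ex σ t < m) : Xw σ m = 0 := by
  unfold Xw
  rw [Finset.sum_sub_distrib, sub_eq_zero]
  have hinj : Set.InjOn (ex σ) (range m : Set ℕ) := (ex_inj σ).injOn
  have himg : (range m).image (ex σ) = range m := by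
    apply Finset.eq_of_subset_of_card_le
    · intro v hv
      rw [mem_image] at hv
      obtain ⟨t, ht, rfl⟩ := hv
      exact mem_range.2 (hm t (mem_range.1 ht))
    · rw [Finset.card_image_of_injOn hinj]
  conv_rhs => rw [← himg]
  rw [Finset.sum_image hinj]

theorem Dp_iff (σ : Perm (Fin k)) (s : ℕ) :
    s ∈ Dp σ ↔ 1 ≤ s ∧ s < k ∧ per (Xw σ) (k + 1) s := by
  constructor
  · intro hs
    refine ⟨hs.1, hs.2.1, ?_⟩
    have h0 : ∀ i, i + s ≤ k → Xw σ (i + s) = Xw σ i + Xw σ s := by
      intro i
      induction i with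
      | zero => intro _; rw [Xw_zero, zero_add, zero_add]
      | succ i ih =>
        intro hi
        rw [show i + 1 + s = i + s + 1 by ring, Xw_succ, Xw_succ, ih (by omega),
          hs.2.2 i (by omega)]
        push_cast
        ring
    have h1 : Xw σ k = 0 := Xw_eq_zero σ k fun t ht => ex_lt σ ht
    have h2 : Xw σ (k - s) = 0 := Xw_eq_zero σ (k - s) fun t ht =>
      (Dp_lt σ hs (by omega)).2 ht
    have h3 : Xw σ s = 0 := by
      have := h0 (k - s) (by have := hs.2.1; omega)
      rw [Nat.sub_add_cancel hs.2.1.le, h1, h2] at this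
      omega
    intro i hi
    rw [h0 i (by omega), h3, add_zero]
  · rintro ⟨h1, h2, h3⟩
    refine ⟨h1, h2, fun t ht => ?_⟩
    have e1 := h3 t (by omega)
    have e2 := h3 (t + 1) (by omega)
    rw [show t + 1 + s = t + s + 1 by ring, Xw_succ, Xw_succ] at e2
    push_cast at e2
    omega

/-- the periods of a word of length `k + 1`, between `1` and `k - 1`. -/
def Per (w : ℕ → Bool) (k : ℕ) : Set ℕ := {s | 1 ≤ s ∧ s < k ∧ per w (k + 1) s}

theorem exists_word (hk : 1 ≤ k) (σ : Perm (Fin k)) :
    ∃ w : ℕ → Bool, (∀ i < k + 1, w i = w (k - i)) ∧ Per w k = D σ := by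
  have key : ∀ σ : Perm (Fin k), ∃ w : ℕ → Bool, (∀ i < k + 1, w i = w (k - i)) ∧
      Per w k = Dp σ := by
    intro σ
    have h1 : Xw σ k = 0 := Xw_eq_zero σ k fun t ht => ex_lt σ ht
    obtain ⟨w, hw1, hw2⟩ := claim (k + 1) (Xw σ) (by omega) (by
      rw [Nat.add_sub_cancel, h1, Xw_zero])
    refine ⟨w, ?_, ?_⟩
    · intro i hi
      have := hw1 i hi
      rwa [Nat.add_sub_cancel] at this
    · ext s
      rw [Dp_iff]
      unfold Per
      simp only [Set.mem_ofPred_eq]
      exact and_congr_right fun h1 => and_congr_right fun h2 => hw2 s h1 (by omega)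
  rcases type σ with h | h
  · rw [h]; exact key σ
  · rw [h]; exact key (comp σ)

/-- the last cut before `t`. -/
def lc (w : ℕ → Bool) (t : ℕ) : ℕ := Nat.findGreatest (fun i => w i = w 0) t

theorem lc_le (w : ℕ → Bool) (t : ℕ) : lc w t ≤ t := Nat.findGreatest_le t

theorem lc_spec (w : ℕ → Bool) (t : ℕ) : w (lc w t) = w 0 :=
  Nat.findGreatest_spec (P := fun i => w i = w 0) (Nat.zero_le t) rfl

theorem le_lc (w : ℕ → Bool) {m t : ℕ} (h : m ≤ t) (hm : w m = w 0) : m ≤ lc w t :=
  Nat.le_findGreatest h hm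

theorem lc_eq (w : ℕ → Bool) {m t : ℕ} (h : m ≤ t) (hm : w m = w 0)
    (h' : ∀ i, m < i → i ≤ t → w i ≠ w 0) : lc w t = m := by
  have h1 := le_lc w h hm
  have h2 := lc_le w t
  by_contra hne
  exact h' _ (by omega) h2 (lc_spec w t)

theorem lc_gt (w : ℕ → Bool) {i t : ℕ} (h : lc w t < i) (h' : i ≤ t) : w i ≠ w 0 := by
  intro hi
  have := le_lc w h' hi
  omega

/-- the direct sum of the cycles `(2, …, s, 1)` over the gaps of `w`. -/
def s0 (w : ℕ → Bool) (t : ℕ) : ℕ := if w (t + 1) = w 0 then lc w t else t + 1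

theorem s0_cut {w : ℕ → Bool} {t : ℕ} (h : w (t + 1) = w 0) : s0 w t = lc w t := if_pos h

theorem s0_ncut {w : ℕ → Bool} {t : ℕ} (h : w (t + 1) ≠ w 0) : s0 w t = t + 1 := if_neg h

theorem s0_lt {w : ℕ → Bool} (hw : w k = w 0) {t : ℕ} (ht : t < k) : s0 w t < k := by
  by_cases h : w (t + 1) = w 0
  · rw [s0_cut h]
    have := lc_le w t
    omega
  · rw [s0_ncut h]
    have : t + 1 ≠ k := by
      rintro rfl
      exact h hw
    omega

theorem s0_inj (w : ℕ → Bool) : Function.Injective (s0 w) := by
  intro t t' h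
  by_cases h1 : w (t + 1) = w 0 <;> by_cases h2 : w (t' + 1) = w 0
  · rw [s0_cut h1, s0_cut h2] at h
    have a1 := lc_le w t
    have a2 := lc_le w t'
    rcases lt_trichotomy t t' with h3 | h3 | h3
    · have := le_lc w (m := t + 1) (t := t') (by omega) h1
      omega
    · exact h3
    · have := le_lc w (m := t' + 1) (t := t) (by omega) h2
      omega
  · rw [s0_cut h1, s0_ncut h2] at h
    exact absurd (by rw [← h]; exact lc_spec w t) h2
  · rw [s0_ncut h1, s0_cut h2] at h
    exact absurd (by rw [h]; exact lc_spec w t') h1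
  · rw [s0_ncut h1, s0_ncut h2] at h
    omega

theorem exists_perm (hk : 3 ≤ k) (w : ℕ → Bool) (hw : w k = w 0) :
    ∃ σ : Perm (Fin k), D σ = Per w k := by
  let f : Fin k → Fin k := fun t => ⟨s0 w t, s0_lt hw t.isLt⟩
  have hf : Function.Bijective f := by
    rw [← Finite.injective_iff_bijective]
    intro t t' h
    exact Fin.ext (s0_inj w (congrArg Fin.val h))
  let σ : Perm (Fin k) := Equiv.ofBijective f hf
  have hσ : ∀ t < k, ex σ t = s0 w t := by
    intro t ht
    simp [ex, ht, σ, f]
  refine ⟨σ, ?_⟩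
  have h1 : Dp (comp σ) = ∅ := by
    rw [Set.eq_empty_iff_forall_notMem]
    intro s hs
    obtain ⟨g1, g2, g3⟩ := hs
    have e1 := g3 0 (by omega)
    have e2 := ex_comp σ (t := 0) (by omega)
    have e3 := ex_comp σ (t := 0 + s) (by omega)
    rw [hσ 0 (by omega)] at e2
    rw [hσ (0 + s) (by omega)] at e3
    have e4 : s0 w 0 ≤ 1 := by
      by_cases h : w (0 + 1) = w 0
      · rw [s0_cut h]
        have := lc_le w 0
        omega
      · rw [s0_ncut h]
    have hs1 : s = 1 := by omega
    subst hs1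
    have e5 := g3 1 (by omega)
    have e6 := ex_comp σ (t := 1 + 1) (by omega)
    have e7 := ex_comp σ (t := 1) (by omega)
    rw [hσ 1 (by omega)] at e7
    rw [zero_add] at e3 e1
    omega
  unfold D
  rw [h1, Set.union_empty]
  ext s
  unfold Per
  simp only [Set.mem_ofPred_eq]
  constructor
  · intro hs
    have hs' := hs
    obtain ⟨g1, g2, g3⟩ := hs'
    refine ⟨g1, g2, ?_⟩
    -- `s` is a cut
    have hcut : w s = w 0 := by
      by_contra hne
      have e1 := (Dp_ge σ hs (t := s - 1) (by omega)).1 (by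
        rw [hσ _ (by omega), s0_ncut (by rwa [Nat.sub_add_cancel g1])]
        omega)
      omega
    have hst : ∀ t, t + s < k → (w (t + 1) = w 0 ↔ w (t + s + 1) = w 0) := by
      intro t ht
      have e1 := g3 t ht
      rw [hσ _ ht, hσ _ (by omega)] at e1
      have a1 := lc_le w t
      have a2 := lc_le w (t + s)
      by_cases h2 : w (t + 1) = w 0 <;> by_cases h3 : w (t + s + 1) = w 0
      · exact iff_of_true h2 h3
      · rw [s0_cut h2, s0_ncut h3] at e1
        omega
      · rw [s0_ncut h2, s0_cut h3] at e1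
        omega
      · exact iff_of_false h2 h3
    intro i hi
    rcases Nat.eq_zero_or_pos i with rfl | hi0
    · rw [zero_add, hcut]
    · have := hst (i - 1) (by omega)
      rw [show i - 1 + s + 1 = i + s by omega, Nat.sub_add_cancel hi0] at this
      revert this
      cases w i <;> cases w (i + s) <;> cases w 0 <;> simp
  · rintro ⟨g1, g2, g3⟩
    refine ⟨g1, g2, fun t ht => ?_⟩
    rw [hσ _ ht, hσ _ (by omega)]
    have e1 := g3 (t + 1) (by omega)
    rw [show t + 1 + s = t + s + 1 by ring] at e1
    by_cases h2 : w (t + 1) = w 0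
    · rw [s0_cut h2, s0_cut (by rw [← e1]; exact h2)]
      have a1 := lc_le w t
      apply lc_eq
      · omega
      · rw [← g3 _ (by omega)]
        exact lc_spec w t
      · intro i hi1 hi2
        have e2 := g3 (i - s) (by omega)
        rw [Nat.sub_add_cancel (by omega)] at e2
        rw [← e2]
        exact lc_gt w (by omega : lc w t < i - s) (by omega)
    · rw [s0_ncut h2, s0_ncut (by rw [← e1]; exact h2)]
      ring

end toword

/-! ### The theorem -/

/-- from the set of periods to the set of palindromic prefixes. -/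
def G (k : ℕ) (S : Set ℕ) : Set ℕ :=
  {i | i = 1 ∨ i = k + 1 ∨ (2 ≤ i ∧ i ≤ k ∧ k + 1 - i ∈ S)}

/-- extension of a word. -/
def ext {n : ℕ} (w : Fin n → Bool) (i : ℕ) : Bool := if h : i < n then w ⟨i, h⟩ else false

theorem ext_val {n : ℕ} (w : Fin n → Bool) (i : Fin n) : ext w i = w i := by
  simp [ext]

theorem pal_iff {n : ℕ} (w : Fin n → Bool) : IsPal w ↔ ∀ i < n, ext w i = ext w (n - 1 - i) := by
  constructor
  · intro h i hi
    have := h ⟨i, hi⟩ ⟨n - 1 - i, by omega⟩ (by simp only; omega)
    rw [← ext_val w, ← ext_val w] at this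
    exact this
  · intro h s t hst
    have := h s s.isLt
    rw [show n - 1 - (s : ℕ) = (t : ℕ) by omega, ext_val, ext_val] at this
    exact this

theorem mem_P {n : ℕ} (w : Fin n → Bool) (i : ℕ) :
    i ∈ P w ↔ 1 ≤ i ∧ i ≤ n ∧ ∀ j < i, ext w j = ext w (i - 1 - j) := by
  unfold P
  simp only [Set.mem_ofPred_eq]
  refine and_congr_right fun h1 => and_congr_right fun h2 => ?_
  constructor
  · intro h j hj
    have := h ⟨j, by omega⟩ ⟨i - 1 - j, by omega⟩ (by simp only; omega)
    rw [← ext_val w, ← ext_val w] at this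
    exact this
  · intro h s t hst
    have := h s (by omega)
    rw [show i - 1 - (s : ℕ) = (t : ℕ) by omega, ext_val, ext_val] at this
    exact this

theorem P_eq {k : ℕ} (w : Fin (k + 1) → Bool) (hw : IsPal w) :
    P w = G k (Per (ext w) k) := by
  rw [pal_iff] at hw
  ext i
  rw [mem_P]
  unfold G Per
  simp only [Set.mem_ofPred_eq]
  constructor
  · rintro ⟨h1, h2, h3⟩
    by_cases h4 : i = 1
    · exact Or.inl h4
    · by_cases h5 : i = k + 1
      · exact Or.inr (Or.inl h5)
      · refine Or.inr (Or.inr ⟨by omega, by omega, by omega, by omega, fun j hj => ?_⟩)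
        rw [h3 j (by omega), hw (i - 1 - j) (by omega)]
        congr 1
        omega
  · rintro (rfl | rfl | ⟨h1, h2, h3, h4, h5⟩)
    · exact ⟨le_rfl, by omega, fun j hj => by
        have : j = 0 := by omega
        subst this
        rfl⟩
    · exact ⟨by omega, le_rfl, fun j hj => hw j hj⟩
    · refine ⟨by omega, by omega, fun j hj => ?_⟩
      rw [h5 j (by omega), hw (j + (k + 1 - i)) (by omega)]
      congr 1
      omega

theorem G_inj (k : ℕ) : Set.InjOn (G k) {S | ∀ s ∈ S, 1 ≤ s ∧ s < k} := by
  have key : ∀ S S' : Set ℕ, (∀ s ∈ S, 1 ≤ s ∧ s < k) → G k S = G k S' → S ⊆ S' := by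
    intro S S' hS h s hs
    obtain ⟨h1, h2⟩ := hS s hs
    have : k + 1 - s ∈ G k S := by
      refine Or.inr (Or.inr ⟨by omega, by omega, ?_⟩)
      rwa [show k + 1 - (k + 1 - s) = s by omega]
    rw [h] at this
    rcases this with h3 | h3 | ⟨-, -, h3⟩
    · omega
    · omega
    · rwa [show k + 1 - (k + 1 - s) = s by omega] at h3
  intro S hS S' hS' h
  exact Set.Subset.antisymm (key S S' hS h) (key S' S hS' h.symm)

/-- The number of Wilf classes of Hertzsprung patterns of length `k` is the number of sets of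
palindromic prefix lengths of binary palindromes of length `k + 1`. -/
theorem result (k : ℕ) (hk : 3 ≤ k) : a k = b (k + 1) := by
  have h1 : wilf k = Setoid.ker (D (k := k)) := by
    ext σ τ
    rw [Setoid.ker_def]
    exact wilf_iff σ τ
  have h2 : a k = (Set.range (D (k := k))).ncard := by
    unfold a
    rw [h1, Nat.card_congr (Setoid.quotientKerEquivRange _)]
    rfl
  have h3 : {S : Set ℕ | ∃ w : Fin (k + 1) → Bool, IsPal w ∧ P w = S} =
      G k '' Set.range (D (k := k)) := by
    ext S
    simp only [Set.mem_ofPred_eq, Set.mem_image, Set.mem_range, exists_exists_eq_and]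
    constructor
    · rintro ⟨w, hw, rfl⟩
      have hw' := (pal_iff w).1 hw 0 (by omega)
      obtain ⟨σ, hσ⟩ := exists_perm hk (ext w) (by
        rw [hw']
        congr 1)
      exact ⟨σ, by rw [hσ, P_eq w hw]⟩
    · rintro ⟨σ, rfl⟩
      obtain ⟨w, hw1, hw2⟩ := exists_word (by omega) σ
      let w' : Fin (k + 1) → Bool := fun i => w i
      have hext : ∀ i < k + 1, ext w' i = w i := by
        intro i hi
        simp [ext, hi, w']
      have hpal : IsPal w' := by
        rw [pal_iff]
        intro i hi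
        rw [hext i hi, hext _ (by omega), hw1 i hi]
        congr 1
      refine ⟨w', hpal, ?_⟩
      rw [P_eq w' hpal, ← hw2]
      congr 1
      unfold Per
      ext s
      simp only [Set.mem_ofPred_eq]
      rw [per_congr hext]
  unfold b
  rw [h2, h3, Set.InjOn.ncard_image]
  refine (G_inj k).mono ?_
  rintro _ ⟨σ, rfl⟩ s hs
  exact D_pos σ hs

end Pool.Agent.Results.MP_7acacd_co.Hertzsprung
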